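import Pool.Agent.Q220.TruthTree.Basic

namespace Pool.Agent.Results.MP_d84959_lc.LetterSharing

open Q220.TruthTree

/-- The set of acceptable formulas has the letter-sharing property: whenever `φ → ψ` is
acceptable, some sentence letter occurs in both `φ` and `ψ`. -/
theorem result (φ ψ : Form) (h : Form.imp φ ψ ∈ Acceptable) : ∃ n, Occurs n φ ∧ Occurs n ψ :=
  letter_sharing φ ψ h

end Pool.Agent.Results.MP_d84959_lc.LetterSharing
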